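import Pool.Agent.Leo4.Stmts
import Pool.Agent.Helper68_Leo4.Basic
import Pool.Agent.Helper76_Leo3.Nmf

/-!
# Squad leo4: module APX (helper85)
-/

set_option autoImplicit false

open NumberField IsDedekindDomain Module

namespace Pool.Agent.Leo4.H85

open Pool.Agent.Leo3 Pool.Agent.Leo4

/-- Elements of `ℤ_3` nonzero modulo 3 are units. -/
theorem norm_eq_one_of_toZMod {z : ℤ_[3]} (h : PadicInt.toZMod (p := 3) z ≠ 0) : ‖z‖ = 1 := by
  by_contra hne
  apply h
  have h1 : ‖z‖ < 1 := lt_of_le_of_ne (PadicInt.norm_le_one z) hne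
  have h2 : z ∈ IsLocalRing.maximalIdeal ℤ_[3] := by
    rw [PadicInt.maximalIdeal_eq_span_p, Ideal.mem_span_singleton]
    exact (PadicInt.norm_lt_one_iff_dvd z).1 h1
  rw [← PadicInt.ker_toZMod] at h2
  exact h2

/-- The norm form `p² + p q - q²` on `ℚ_3` is anisotropic modulo 3. -/
theorem norm_form (p q : ℚ_[3]) : ‖p ^ 2 + p * q - q ^ 2‖ = max ‖p‖ ‖q‖ ^ 2 := by
  rcases le_total ‖p‖ ‖q‖ with h | h
  · rw [max_eq_right h]
    by_cases hq : q = 0
    · rw [hq, norm_zero] at h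
      have hp : p = 0 := norm_le_zero_iff.1 h
      rw [hp, hq]
      simp
    · have hq' : ‖q‖ ≠ 0 := norm_ne_zero_iff.2 hq
      have h1 : ‖p / q‖ ≤ 1 := by
        rw [norm_div, div_le_one (lt_of_le_of_ne (norm_nonneg _) hq'.symm)]
        exact h
      set z : ℤ_[3] := ⟨p / q, h1⟩ with hz
      have h2 : ‖z ^ 2 + z - 1‖ = 1 := by
        apply norm_eq_one_of_toZMod
        rw [map_sub, map_add, map_pow, map_one]
        generalize PadicInt.toZMod (p := 3) z = w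
        revert w
        decide
      have h3 : ‖(p / q) ^ 2 + p / q - 1‖ = 1 := by
        rw [← h2, PadicInt.norm_def]
        push_cast
        rfl
      have h4 : p ^ 2 + p * q - q ^ 2 = q ^ 2 * ((p / q) ^ 2 + p / q - 1) := by
        field_simp
      rw [h4, norm_mul, h3, mul_one, norm_pow]
  · rw [max_eq_left h]
    by_cases hp : p = 0
    · rw [hp, norm_zero] at h
      have hq : q = 0 := norm_le_zero_iff.1 h
      rw [hp, hq]
      simp
    · have hp' : ‖p‖ ≠ 0 := norm_ne_zero_iff.2 hp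
      have h1 : ‖q / p‖ ≤ 1 := by
        rw [norm_div, div_le_one (lt_of_le_of_ne (norm_nonneg _) hp'.symm)]
        exact h
      set z : ℤ_[3] := ⟨q / p, h1⟩ with hz
      have h2 : ‖1 + z - z ^ 2‖ = 1 := by
        apply norm_eq_one_of_toZMod
        rw [map_sub, map_add, map_pow, map_one]
        generalize PadicInt.toZMod (p := 3) z = w
        revert w
        decide
      have h3 : ‖1 + q / p - (q / p) ^ 2‖ = 1 := by
        rw [← h2, PadicInt.norm_def]
        push_cast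
        rfl
      have h4 : p ^ 2 + p * q - q ^ 2 = p ^ 2 * (1 + q / p - (q / p) ^ 2) := by
        field_simp
      rw [h4, norm_mul, h3, mul_one, norm_pow]

theorem norm_alg (x : ℚ_[3]) : ‖algebraMap ℚ_[3] Om x‖ = ‖x‖ := PadicAlgCl.norm_extends 3 x

theorem na (x y : Om) : ‖x + y‖ ≤ max ‖x‖ ‖y‖ := PadicAlgCl.isNonarchimedean 3 x y

/-- A root of `x² = x + 1` is integral. -/
theorem norm_F {F : Om} (hF : F ^ 2 = F + 1) : ‖F‖ ≤ 1 := by
  by_contra h
  push Not at h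
  have h1 : ‖F‖ ^ 2 = ‖F + 1‖ := by rw [← norm_pow, hF]
  have h2 : ‖F + 1‖ ≤ ‖F‖ := (na F 1).trans (by rw [norm_one]; exact max_le le_rfl h.le)
  nlinarith

/-- The norm on `ℚ_3(F)`. -/
theorem norm_pq {F : Om} (hF : F ^ 2 = F + 1) (p q : ℚ_[3]) :
    ‖algebraMap ℚ_[3] Om p + algebraMap ℚ_[3] Om q * F‖ = max ‖p‖ ‖q‖ := by
  set M := max ‖p‖ ‖q‖ with hM
  have hM0 : 0 ≤ M := (norm_nonneg p).trans (le_max_left _ _)
  have key : ∀ (G : Om), ‖G‖ ≤ 1 → ‖algebraMap ℚ_[3] Om p + algebraMap ℚ_[3] Om q * G‖ ≤ M := by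
    intro G hG
    refine (na _ _).trans (max_le ?_ ?_)
    · rw [norm_alg]
      exact le_max_left _ _
    · rw [norm_mul, norm_alg]
      exact (mul_le_of_le_one_right (norm_nonneg q) hG).trans (le_max_right _ _)
  have h1 := key F (norm_F hF)
  have h2 := key (1 - F) (norm_F (by linear_combination hF))
  have h3 : ‖algebraMap ℚ_[3] Om p + algebraMap ℚ_[3] Om q * F‖ *
      ‖algebraMap ℚ_[3] Om p + algebraMap ℚ_[3] Om q * (1 - F)‖ = M ^ 2 := by
    rw [← norm_mul, hM, ← norm_form, ← norm_alg]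
    congr 1
    rw [map_sub, map_add, map_mul, map_pow, map_pow]
    linear_combination (-(algebraMap ℚ_[3] Om q) ^ 2) * hF
  rcases eq_or_lt_of_le hM0 with h4 | h4
  · rw [← h4] at h1 ⊢
    exact le_antisymm h1 (norm_nonneg _)
  · apply le_antisymm h1
    by_contra h5
    push Not at h5
    have h6 := norm_nonneg (algebraMap ℚ_[3] Om p + algebraMap ℚ_[3] Om q * F)
    nlinarith

/-- `x² = x + 1` has no rational root. -/
theorem no_rat (t : ℚ) : t ^ 2 ≠ t + 1 := by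
  intro h
  have h1 : ‖((t : ℚ_[3])) ^ 2 + (t : ℚ_[3]) * (-1) - (-1) ^ 2‖ = max ‖(t : ℚ_[3])‖ ‖(-1 : ℚ_[3])‖ ^ 2 :=
    norm_form _ _
  have h2 : ((t : ℚ_[3])) ^ 2 + (t : ℚ_[3]) * (-1) - (-1) ^ 2 = 0 := by
    have := congrArg (fun x : ℚ => (x : ℚ_[3])) h
    push_cast at this
    linear_combination this
  rw [h2, norm_zero] at h1
  have h3 : max ‖(t : ℚ_[3])‖ ‖(-1 : ℚ_[3])‖ = 0 := by
    exact (pow_eq_zero_iff two_ne_zero).1 h1.symm
  have h4 : (1 : ℝ) ≤ max ‖(t : ℚ_[3])‖ ‖(-1 : ℚ_[3])‖ := by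
    rw [norm_neg, norm_one]
    exact le_max_right _ _
  linarith

/-- `k` is generated by `f`. -/
theorem adj_top {k : Type} [Field k] [NumberField k] {f : k} (h2 : finrank ℚ k = 2)
    (hf : f ^ 2 = f + 1) : IntermediateField.adjoin ℚ {f} = ⊤ := by
  have hint : IsIntegral ℚ f := Algebra.IsIntegral.isIntegral f
  have h1 : (minpoly ℚ f).natDegree ∣ 2 := h2 ▸ minpoly.degree_dvd hint
  have h6 : (minpoly ℚ f).natDegree ≠ 1 := by
    intro h7
    obtain ⟨t, ht⟩ := (minpoly.natDegree_eq_one_iff).1 h7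
    apply no_rat t
    apply (algebraMap ℚ k).injective
    rw [map_pow, map_add, map_one, ht, hf]
  apply IntermediateField.eq_of_le_of_finrank_eq le_top
  rw [IntermediateField.adjoin.finrank hint, IntermediateField.finrank_top', h2]
  rcases (Nat.dvd_prime Nat.prime_two).1 h1 with h | h
  · exact absurd h h6
  · exact h

/-- An automorphism fixing the image of `f` fixes the image of `k`. -/
theorem fix_of {k : Type} [Field k] [NumberField k] {f : k} (h2 : finrank ℚ k = 2)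
    (hf : f ^ 2 = f + 1) (ψ : k →+* Om) (ρ : Om ≃ₐ[ℚ_[3]] Om)
    (h : ρ (ψ f) = ψ f) : FixF ψ ρ := by
  intro x
  have hx : x ∈ IntermediateField.adjoin ℚ {f} := by rw [adj_top h2 hf]; trivial
  induction hx using IntermediateField.adjoin_induction with
  | mem y hy => rw [Set.mem_singleton_iff.1 hy, h]
  | algebraMap q => simp
  | add y z _ _ h1 h2 => rw [map_add, map_add, h1, h2]
  | inv y _ h1 => rw [map_inv₀, map_inv₀, h1]
  | mul y z _ _ h1 h2 => rw [map_mul, map_mul, h1, h2]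

/-- The image of `f` in `Om`. -/
theorem psi_sq {k : Type} [Field k] {f : k} (hf : f ^ 2 = f + 1) (ψ : k →+* Om) :
    (ψ f) ^ 2 = ψ f + 1 := by
  rw [← map_pow, hf, map_add, map_one]

/-- Elements of the completion. -/
theorem form_of {k : Type} [Field k] [NumberField k] {f : k} (h2 : finrank ℚ k = 2)
    (hf : f ^ 2 = f + 1) (ψ : k →+* Om) (t : Om) (ht : InLoc ψ t) :
    ∃ p q : ℚ_[3], t = algebraMap ℚ_[3] Om p + algebraMap ℚ_[3] Om q * ψ f := by
  have hF := psi_sq hf ψ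
  have hR : (2 * ψ f - 1) ^ 2 = algebraMap ℚ_[3] Om 5 := by
    rw [map_ofNat]
    linear_combination 4 * hF
  obtain ⟨p, q, h⟩ := H76.quad_elt (t := t) hR (by
    intro ρ hρ
    apply ht
    apply fix_of h2 hf
    have h1 : 2 * ρ (ψ f) - 1 = 2 * ψ f - 1 := by
      rw [map_sub, map_mul, map_ofNat, map_one] at hρ
      exact hρ
    have h3 : (2 : Om) * (ρ (ψ f) - ψ f) = 0 := by linear_combination h1
    exact sub_eq_zero.1 ((mul_eq_zero.1 h3).resolve_left two_ne_zero))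
  refine ⟨p - q, 2 * q, ?_⟩
  rw [h, map_sub, map_mul, map_ofNat]
  ring

/-- The image of `ev f x`. -/
theorem psi_ev {k : Type} [Field k] {f : k} (ψ : k →+* Om) (x : O) :
    ψ (ev f x) = algebraMap ℚ_[3] Om (x.re : ℚ_[3]) + algebraMap ℚ_[3] Om (x.im : ℚ_[3]) * ψ f := by
  simp [ev]

/-- Approximation of 3-adic integers. -/
theorem appr_int (p : ℚ_[3]) (hp : ‖p‖ ≤ 1) (n : ℕ) : ∃ a : ℤ, ‖p - a‖ ≤ (3 : ℝ)⁻¹ ^ n := by
  set z : ℤ_[3] := ⟨p, hp⟩ with hz
  refine ⟨(z.appr n : ℕ), ?_⟩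
  have h1 := PadicInt.appr_spec n z
  rw [← PadicInt.norm_le_pow_iff_mem_span_pow] at h1
  have h2 : ‖z - (z.appr n : ℕ)‖ = ‖p - ((z.appr n : ℕ) : ℤ)‖ := by
    rw [PadicInt.norm_def]
    push_cast
    rfl
  rw [← h2]
  refine h1.trans (le_of_eq ?_)
  rw [inv_pow, zpow_neg, zpow_natCast]
  norm_num

/-- `APX`. -/
theorem apx : ApxStmt := by
  intro k _ _ f h2 hf ψ
  have hF := psi_sq hf ψ
  refine ⟨form_of h2 hf ψ, ?_, ?_⟩
  · intro t ht h1 n
    obtain ⟨p, q, h⟩ := form_of h2 hf ψ t ht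
    have h3 : max ‖p‖ ‖q‖ ≤ 1 := by
      rw [← norm_pq hF, ← h]
      exact h1
    obtain ⟨a, ha⟩ := appr_int p ((le_max_left _ _).trans h3) n
    obtain ⟨b, hb⟩ := appr_int q ((le_max_right _ _).trans h3) n
    refine ⟨⟨a, b⟩, ?_⟩
    have h4 : t - ψ (ev f ⟨a, b⟩) =
        algebraMap ℚ_[3] Om (p - a) + algebraMap ℚ_[3] Om (q - b) * ψ f := by
      rw [psi_ev, h, map_sub, map_sub]
      ring
    rw [h4, norm_pq hF]
    exact max_le ha hb
  · intro y n h
    rw [psi_ev, norm_pq hF] at h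
    have key : ∀ a : ℤ, ‖(a : ℚ_[3])‖ ≤ (3 : ℝ)⁻¹ ^ n → (3 : ℤ) ^ n ∣ a := by
      intro a ha
      have h1 := (Padic.norm_int_le_pow_iff_dvd (p := 3) a n).1 (by
        refine ha.trans (le_of_eq ?_)
        rw [inv_pow, zpow_neg, zpow_natCast]
        norm_num)
      exact_mod_cast h1
    obtain ⟨a, ha⟩ := key y.re ((le_max_left _ _).trans h)
    obtain ⟨b, hb⟩ := key y.im ((le_max_right _ _).trans h)
    refine ⟨⟨a, b⟩, ?_⟩
    have h3 : ((3 : O) ^ n) = (((3 : ℤ) ^ n : ℤ) : O) := by push_cast; rfl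
    rw [h3]
    generalize (3 : ℤ) ^ n = N at ha hb
    ext
    · rw [QuadraticAlgebra.re_mul]
      simp [ha]
    · rw [QuadraticAlgebra.im_mul]
      simp [hb]

end Pool.Agent.Leo4.H85
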