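import Pool.Agent.Leo4.Stmts
import Pool.Agent.Helper11_Leo3.Loc

/-!
# Squad leo4: module LC2 (helper85)
-/

set_option autoImplicit false

open NumberField IsDedekindDomain Module

namespace Pool.Agent.Leo4.H85

open Pool.Agent.Leo3 Pool.Agent.Leo4

/-- `LC2`. -/
theorem lc2 : Lc2Stmt := by
  intro k K _ _ _ _ _ hK φ t ht hcube ρ hρ
  by_cases h0 : t = 0
  · rw [h0, map_zero]
  have h1 : InLoc φ (ρ t / t) := by
    intro σ hσ
    rw [map_div₀, H11.inLoc_map φ ρ hρ t ht σ hσ, ht σ hσ]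
  have h2 : (ρ t / t) ^ 3 = 1 := by
    rw [div_pow, ← map_pow, hcube ρ hρ, div_self (pow_ne_zero 3 h0)]
  have h4 := hK φ _ h1 h2
  rwa [div_eq_one_iff_eq h0] at h4

end Pool.Agent.Leo4.H85
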