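import Pool.Agent.Leo4.Stmts
import Pool.Agent.Helper85_Leo4.Apx

/-!
# Squad leo4: module NMK (helper85)
-/

set_option autoImplicit false

open NumberField IsDedekindDomain Module

namespace Pool.Agent.Leo4.H85

open Pool.Agent.Leo3 Pool.Agent.Leo4

/-- The norm of an element of `ℚ_3(F)` is an integral power of 3. -/
theorem norm_sq_ne {F : Om} (hF : F ^ 2 = F + 1) (p q : ℚ_[3]) :
    ‖algebraMap ℚ_[3] Om p + algebraMap ℚ_[3] Om q * F‖ ^ 2 ≠ (3 : ℝ)⁻¹ := by
  rw [norm_pq hF]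
  have key : ∀ x : ℚ_[3], ‖x‖ ^ 2 ≠ (3 : ℝ)⁻¹ := by
    intro x hx
    by_cases h0 : x = 0
    · rw [h0] at hx
      norm_num at hx
    · rw [Padic.norm_eq_zpow_neg_valuation h0] at hx
      have h1 : ((3 : ℝ) ^ (-x.valuation)) ^ 2 = (3 : ℝ) ^ (-x.valuation * 2) := by
        rw [zpow_mul]
        norm_cast
      have h2 : ((3 : ℕ) : ℝ) = (3 : ℝ) := by norm_num
      rw [h2, h1, ← zpow_neg_one] at hx
      have h3 := zpow_right_injective₀ (a := (3 : ℝ)) (by norm_num) (by norm_num) hx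
      omega
  rcases max_choice ‖p‖ ‖q‖ with h | h
  · rw [h]
    exact key p
  · rw [h]
    exact key q

theorem norm_sq_ne' {k : Type} [Field k] [NumberField k] {f : k} (h2 : finrank ℚ k = 2)
    (hf : f ^ 2 = f + 1) (ψ : k →+* Om) {t : Om} (ht : InLoc ψ t) : ‖t‖ ^ 2 ≠ (3 : ℝ)⁻¹ := by
  obtain ⟨p, q, h⟩ := form_of h2 hf ψ t ht
  rw [h]
  exact norm_sq_ne (psi_sq hf ψ) p q

theorem norm_three : ‖(3 : Om)‖ = (3 : ℝ)⁻¹ := by
  have h : (3 : Om) = algebraMap ℚ_[3] Om 3 := by rw [map_ofNat]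
  rw [h, norm_alg]
  have := Padic.norm_p (p := 3)
  exact_mod_cast this

/-- The norm of a unit at 3. -/
theorem norm_unit {k : Type} [Field k] {f : k} (hf : f ^ 2 = f + 1) (ψ : k →+* Om) {m : O}
    (hm : ¬ (3 : O) ∣ m) : ‖ψ (ev f m)‖ = 1 := by
  rw [psi_ev, norm_pq (psi_sq hf ψ)]
  by_contra hne
  have h1 : max ‖(m.re : ℚ_[3])‖ ‖(m.im : ℚ_[3])‖ < 1 :=
    lt_of_le_of_ne (max_le (Padic.norm_int_le_one _) (Padic.norm_int_le_one _)) hne
  have h2 := (Padic.norm_intCast_lt_one_iff (p := 3) (k := m.re)).1 ((le_max_left _ _).trans_lt h1)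
  have h3 := (Padic.norm_intCast_lt_one_iff (p := 3) (k := m.im)).1 ((le_max_right _ _).trans_lt h1)
  obtain ⟨a, ha⟩ := h2
  obtain ⟨b, hb⟩ := h3
  apply hm
  refine ⟨⟨a, b⟩, ?_⟩
  have h3 : (3 : O) = ((3 : ℤ) : O) := by push_cast; rfl
  rw [h3]
  push_cast at ha hb
  generalize (3 : ℤ) = N at ha hb
  ext
  · rw [QuadraticAlgebra.re_mul]
    simp [ha]
  · rw [QuadraticAlgebra.im_mul]
    simp [hb]

/-- `K` is generated by `r`. -/
theorem fix_up {k K : Type} [Field k] [NumberField k] [Field K] [NumberField K] [Algebra k K]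
    {r : K} (h2 : finrank k K = 2) (hr : ∀ s : k, algebraMap k K s ≠ r) (φ : K →+* Om)
    (ρ : Om ≃ₐ[ℚ_[3]] Om) (hρ : FixF (φ.comp (algebraMap k K)) ρ) (h : ρ (φ r) = φ r) :
    FixF φ ρ := by
  have : FiniteDimensional k K := Module.finite_of_finrank_pos (by omega)
  have htop : IntermediateField.adjoin k {r} = ⊤ := by
    have hint : IsIntegral k r := Algebra.IsIntegral.isIntegral r
    have h1 : (minpoly k r).natDegree ∣ 2 := h2 ▸ minpoly.degree_dvd hint
    have h6 : (minpoly k r).natDegree ≠ 1 := by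
      intro h7
      obtain ⟨t, ht⟩ := (minpoly.natDegree_eq_one_iff).1 h7
      exact hr t ht
    apply IntermediateField.eq_of_le_of_finrank_eq le_top
    rw [IntermediateField.adjoin.finrank hint, IntermediateField.finrank_top', h2]
    rcases (Nat.dvd_prime Nat.prime_two).1 h1 with h | h
    · exact absurd h h6
    · exact h
  intro x
  have hx : x ∈ IntermediateField.adjoin k {r} := by rw [htop]; trivial
  induction hx using IntermediateField.adjoin_induction with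
  | mem y hy => rw [Set.mem_singleton_iff.1 hy, h]
  | algebraMap q => exact hρ q
  | add y z _ _ h1 h2 => rw [map_add, map_add, h1, h2]
  | inv y _ h1 => rw [map_inv₀, map_inv₀, h1]
  | mul y z _ _ h1 h2 => rw [map_mul, map_mul, h1, h2]

/-- `NMK`. -/
theorem nmk : NmkStmt := by
  intro k K _ _ _ _ _ f r m hk hf hK hr hm φ ξ hξ hξ3
  by_contra hne
  have hs : 1 + ξ + ξ ^ 2 = 0 := by
    have : (ξ - 1) * (1 + ξ + ξ ^ 2) = 0 := by
      linear_combination hξ3
    exact (mul_eq_zero.1 this).resolve_left (sub_ne_zero.2 hne)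
  set ψ : k →+* Om := φ.comp (algebraMap k K) with hψ
  have hm3 : ¬ (3 : O) ∣ m := by
    intro h
    apply hm 0
    simpa using h
  have hnm := norm_unit hf ψ hm3
  have hm0 : ψ (ev f m) ≠ 0 := by
    intro h
    rw [h, norm_zero] at hnm
    exact zero_ne_one hnm
  have hR2 : (φ r) ^ 2 = 3 * ψ (ev f m) := by
    rw [← map_pow, hr, hψ, RingHom.comp_apply, map_mul, map_mul, map_ofNat, map_ofNat]
  have hRn : ‖φ r‖ ^ 2 = (3 : ℝ)⁻¹ := by
    rw [← norm_pow, hR2, norm_mul, norm_three, hnm, mul_one]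
  have hR0 : φ r ≠ 0 := by
    intro h
    rw [h] at hRn
    norm_num at hRn
  have hrk : ∀ s : k, algebraMap k K s ≠ r := by
    intro s hs
    have h1 : InLoc ψ (φ r) := by
      intro ρ hρ
      rw [← hs]
      exact hρ s
    exact norm_sq_ne' hk hf ψ h1 hRn
  have hRin : InLoc φ (φ r) := fun ρ hρ => hρ r
  set δ : Om := 2 * ξ + 1 with hδ
  have hδ2 : δ ^ 2 = -3 := by
    rw [hδ]
    linear_combination 4 * hs
  have hδn : ‖δ‖ ^ 2 = (3 : ℝ)⁻¹ := by
    rw [← norm_pow, hδ2, norm_neg, norm_three]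
  have hδ0 : δ ≠ 0 := by
    intro h
    rw [h] at hδn
    norm_num at hδn
  have hδin : InLoc φ δ := by
    intro ρ hρ
    rw [hδ, map_add, map_mul, map_ofNat, map_one, hξ ρ hρ]
  set η : Om := φ r / δ with hη
  have hηin : InLoc φ η := by
    intro ρ hρ
    rw [hη, map_div₀, hRin ρ hρ, hδin ρ hρ]
  have hη2 : η ^ 2 = -ψ (ev f m) := by
    rw [hη, div_pow, hR2, hδ2, div_eq_iff (by norm_num)]
    ring
  have hη0 : η ≠ 0 := div_ne_zero hR0 hδ0
  have hpm : ∀ ρ : Om ≃ₐ[ℚ_[3]] Om, FixF ψ ρ → ρ η = η ∨ ρ η = -η := by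
    intro ρ hρ
    apply sq_eq_sq_iff_eq_or_eq_neg.1
    rw [← map_pow, hη2, map_neg, hρ]
  have hpmR : ∀ ρ : Om ≃ₐ[ℚ_[3]] Om, FixF ψ ρ → ρ (φ r) = φ r ∨ ρ (φ r) = -φ r := by
    intro ρ hρ
    apply sq_eq_sq_iff_eq_or_eq_neg.1
    rw [← map_pow, hR2, map_mul, map_ofNat, hρ]
  by_cases hcase : InLoc ψ η
  · have hηn : ‖η‖ = 1 := by
      have h1 : ‖η‖ ^ 2 = 1 := by rw [← norm_pow, hη2, norm_neg, hnm]
      have h2 := norm_nonneg η
      nlinarith
    obtain ⟨-, h2, h3⟩ := apx k f hk hf ψ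
    obtain ⟨x, hx⟩ := h2 η hcase hηn.le 1
    have hxn : ‖ψ (ev f x)‖ ≤ 1 := by
      have e : ψ (ev f x) = η + -(η - ψ (ev f x)) := by ring
      rw [e]
      refine (na _ _).trans (max_le hηn.le ?_)
      rw [norm_neg]
      refine hx.trans ?_
      norm_num
    have h4 : ‖ψ (ev f (-m - x ^ 2))‖ ≤ (3 : ℝ)⁻¹ ^ 1 := by
      have e : ψ (ev f (-m - x ^ 2)) = (η - ψ (ev f x)) * (η + ψ (ev f x)) := by
        rw [ev_sub, ev_neg, ev_pow hf, map_sub, map_neg, map_pow]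
        linear_combination -hη2
      rw [e, norm_mul]
      have h5 : ‖η + ψ (ev f x)‖ ≤ 1 := (na _ _).trans (max_le hηn.le hxn)
      calc ‖η - ψ (ev f x)‖ * ‖η + ψ (ev f x)‖ ≤ ‖η - ψ (ev f x)‖ * 1 :=
            mul_le_mul_of_nonneg_left h5 (norm_nonneg _)
        _ ≤ (3 : ℝ)⁻¹ ^ 1 := by rw [mul_one]; exact hx
    obtain ⟨c, hc⟩ := h3 _ 1 h4
    rw [pow_one] at hc
    apply hm ((1 + phi) * x)
    have hphi : phi ^ 2 = phi + 1 := by
      rw [pow_two]
      ext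
      · rw [QuadraticAlgebra.re_mul]; simp [phi, QuadraticAlgebra.re_one]
      · rw [QuadraticAlgebra.im_mul]; simp [phi, QuadraticAlgebra.im_one]
    refine ⟨-c - (1 + phi) * x ^ 2, ?_⟩
    linear_combination (-1) * hc - x ^ 2 * hphi
  · have hex : ∃ ρ₀ : Om ≃ₐ[ℚ_[3]] Om, FixF ψ ρ₀ ∧ ρ₀ η ≠ η := by
      by_contra h
      push Not at h
      exact hcase h
    obtain ⟨ρ₀, h0, hne0⟩ := hex
    have hρη : ρ₀ η = -η := (hpm ρ₀ h0).resolve_left hne0
    have hρR : ρ₀ (φ r) = -φ r := by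
      refine (hpmR ρ₀ h0).resolve_left ?_
      intro h
      exact hne0 (hηin ρ₀ (fix_up hK hrk φ ρ₀ h0 h))
    have hRη : InLoc ψ (φ r * η) := by
      intro ρ hρ
      rw [map_mul]
      rcases hpmR ρ hρ with h | h
      · rw [h, hηin ρ (fix_up hK hrk φ ρ hρ h)]
      · have h5 : ρ η = -η := by
          have h6 : FixF ψ (ρ₀.trans ρ) := by
            intro x
            rw [AlgEquiv.trans_apply, h0, hρ]
          have h7 : (ρ₀.trans ρ) (φ r) = φ r := by
            rw [AlgEquiv.trans_apply, hρR, map_neg, h, neg_neg]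
          have h8 := hηin _ (fix_up hK hrk φ _ h6 h7)
          rw [AlgEquiv.trans_apply, hρη, map_neg] at h8
          linear_combination -h8
        rw [h, h5]
        ring
    have hδψ : InLoc ψ δ := by
      intro ρ hρ
      have h1 := hRη ρ hρ
      have e : φ r * η = 3 * ψ (ev f m) / δ := by
        rw [hη, ← hR2]
        ring
      rw [e, map_div₀, map_mul, map_ofNat, hρ] at h1
      have h3m : (3 : Om) * ψ (ev f m) ≠ 0 := mul_ne_zero three_ne_zero hm0
      have hρδ : ρ δ ≠ 0 := by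
        intro h
        exact hδ0 (ρ.injective (by rw [h, map_zero]))
      rw [div_eq_div_iff hρδ hδ0] at h1
      exact (mul_left_cancel₀ h3m h1).symm
    exact norm_sq_ne' hk hf ψ hδψ hδn

end Pool.Agent.Leo4.H85
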